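import Pool.Agent.Helper70.EK.E3Int
import Pool.Agent.Helper67.EK.E1c
import Pool.Agent.Helper39.EK.E1a
set_option autoImplicit false
open Complex MeasureTheory Metric Set
open scoped Real ComplexConjugate

/-! Project EK, module E6a: the bound for one target, from E1b, E1d and E3 as hypotheses. -/

namespace Pool.Agent.Helper83.EK

open Pool.Agent.Helper39.Area Pool.Agent.Helper52.EK Pool.Agent.Helper70.EK

theorem integrableOn_rect {F : ℝ × ℝ → ℝ} {x₁ x₂ : ℝ}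
    (hc : ContinuousOn F (Icc x₁ x₂ ×ˢ Icc 0 π)) :
    IntegrableOn F (Ioc x₁ x₂ ×ˢ Ioo 0 π) :=
  (hc.integrableOn_compact (isCompact_Icc.prod isCompact_Icc)).mono_set
    (prod_mono Ioc_subset_Icc_self Ioo_subset_Icc_self)

/-- comparison of the energies: `∬ F₁ ≤ p ∬ F₂ + q ∬ F₃` -/
theorem II_le3 {F₁ F₂ F₃ : ℝ → ℝ → ℝ} {x₁ x₂ p q : ℝ} (h : x₁ ≤ x₂)
    (c₁ : ContinuousOn (fun v : ℝ × ℝ => F₁ v.1 v.2) (Icc x₁ x₂ ×ˢ Icc 0 π))
    (c₂ : ContinuousOn (fun v : ℝ × ℝ => F₂ v.1 v.2) (Icc x₁ x₂ ×ˢ Icc 0 π))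
    (c₃ : ContinuousOn (fun v : ℝ × ℝ => F₃ v.1 v.2) (Icc x₁ x₂ ×ˢ Icc 0 π))
    (hle : ∀ ξ η : ℝ, F₁ ξ η ≤ p * F₂ ξ η + q * F₃ ξ η) :
    II x₁ x₂ F₁ ≤ p * II x₁ x₂ F₂ + q * II x₁ x₂ F₃ := by
  have i₁ := integrableOn_rect c₁
  have i₂ := integrableOn_rect c₂
  have i₃ := integrableOn_rect c₃
  rw [II_eq h i₁, II_eq h i₂, II_eq h i₃, ← integral_const_mul, ← integral_const_mul,
    ← integral_add (i₂.const_mul p) (i₃.const_mul q)]
  exact setIntegral_mono_on i₁ ((i₂.const_mul p).add (i₃.const_mul q))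
    (measurableSet_Ioc.prod measurableSet_Ioo) (fun v _ => hle v.1 v.2)

theorem II_nonneg {F : ℝ → ℝ → ℝ} {x₁ x₂ : ℝ} (h : x₁ ≤ x₂) (hF : ∀ ξ η : ℝ, 0 ≤ F ξ η) :
    0 ≤ II x₁ x₂ F := by
  unfold II
  apply intervalIntegral.integral_nonneg h
  intro ξ _
  exact intervalIntegral.integral_nonneg Real.pi_pos.le (fun η _ => hF ξ η)

theorem pt_mapsTo (x₁ x₂ : ℝ) :
    MapsTo (fun p : ℝ × ℝ => pt p.1 p.2) (Icc x₁ x₂ ×ˢ Icc 0 π) (Rect x₁ x₂) := by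
  rintro ⟨ξ, η⟩ ⟨hξ, hη⟩
  change pt ξ η ∈ Rect x₁ x₂
  unfold Rect
  rw [Complex.mem_reProdIm]
  have e1 : (pt ξ η).re = ξ := by simp [pt]
  have e2 : (pt ξ η).im = η := by simp [pt]
  rw [e1, e2]
  exact ⟨hξ, hη⟩

theorem tau_pos {a : ℝ} (ha : 0 < a) (ha1 : a < 1) : 0 < tau a := by
  unfold tau
  exact div_pos (by linarith) (by linarith)

theorem kap_contOn {a x₁ x₂ : ℝ} (ha : 0 < a) (ha1 : a < 1) (h1 : Real.log (tau a) < x₁)
    (h2 : x₂ < 0) :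
    ContinuousOn (fun v : ℝ × ℝ => kap a (pt v.1 v.2)) (Icc x₁ x₂ ×ˢ Icc 0 π) := by
  have ht := tau_pos ha ha1
  have hE : Continuous (fun v : ℝ × ℝ => Complex.exp (pt v.1 v.2)) :=
    Complex.continuous_exp.comp continuous_pt
  unfold kap
  apply ContinuousOn.div
  · exact ((hE.pow 2).mul continuous_const).continuousOn
  · exact (((hE.pow 2).add continuous_const).mul ((hE.pow 2).add continuous_const)).continuousOn
  · rintro ⟨ξ, η⟩ ⟨hξ, _⟩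
    have hξ1 : x₁ ≤ ξ := hξ.1
    have hξ2 : ξ ≤ x₂ := hξ.2
    have hn : ‖Complex.exp (pt ξ η)‖ = Real.exp ξ := by
      rw [Complex.norm_exp]
      simp [pt]
    have h3 : tau a < Real.exp ξ := by
      rw [← Real.exp_log ht]
      exact Real.exp_lt_exp.mpr (by linarith)
    have h4 : Real.exp ξ < 1 := by
      rw [← Real.exp_zero]
      exact Real.exp_lt_exp.mpr (by linarith)
    have h5 := Real.exp_pos ξ
    apply mul_ne_zero
    · intro h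
      have h6 : Complex.exp (pt ξ η) ^ 2 = -((tau a : ℂ) ^ 2) := by linear_combination h
      have h7 : ‖Complex.exp (pt ξ η) ^ 2‖ = tau a ^ 2 := by
        rw [h6, norm_neg, norm_pow, Complex.norm_real, Real.norm_eq_abs, abs_of_pos ht]
      rw [norm_pow, hn] at h7
      nlinarith
    · intro h
      have h6 : Complex.exp (pt ξ η) ^ 2 = -1 := by linear_combination h
      have h7 : ‖Complex.exp (pt ξ η) ^ 2‖ = 1 := by
        rw [h6, norm_neg, norm_one]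
      rw [norm_pow, hn] at h7
      nlinarith

/-- the threshold: the two halves of the strip are far apart for `a` close to one -/
theorem tau_far {a A : ℝ} (ha : 1 - Real.exp (-2 * A) < a) (ha0 : 0 < a) (ha1 : a < 1) :
    Real.log (tau a) + A ≤ -A := by
  have ht := tau_pos ha0 ha1
  have h1 : tau a ≤ Real.exp (-2 * A) := by
    unfold tau
    rw [div_le_iff₀ (by linarith)]
    have := Real.exp_pos (-2 * A)
    nlinarith
  have h2 : Real.log (tau a) ≤ -2 * A := by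
    rw [Real.log_le_iff_le_exp ht]
    exact h1
  linarith

theorem K_one_of
    (E1b : ∀ {β : ℂ → ℂ} {R : ℝ} (_ : ExtR β R) {a : ℝ} (_ : 0 < a) (_ : a < 1) {x₁ x₂ : ℝ}
      (_ : Real.log (tau a) < x₁) (_ : x₁ ≤ x₂) (_ : x₂ < 0),
      II x₁ x₂ (fun ξ η => ‖2 * Xf β a (pt ξ η) - 2 * kap a (pt ξ η)‖ ^ 2) ≤
        2 * π * Real.log (‖N β a‖ / (1 - a ^ 2)))
    (E1d : ∃ C : ℝ, ∀ a : ℝ, 0 < a → a < 1 → ∀ x₁ x₂ : ℝ, Real.log (tau a) + 1 ≤ x₁ →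
      x₁ ≤ x₂ → x₂ ≤ -1 → II x₁ x₂ (fun ξ η => ‖kap a (pt ξ η) - 1‖ ^ 2) ≤ C)
    {κ₂ κ : ℝ} {G : ℂ → ℂ}
    (E3 : ∀ A : ℝ, 1 ≤ A → ∃ C : ℝ,
      ∀ (β : ℂ → ℂ) (R a : ℝ), ExtR β R → Real.exp (-1) < a → a < 1 →
      Real.log (tau a) + A ≤ -A →
      Kf (wf G β) 1 (-1) (Real.log a) ≤ π⁻¹ * II (Real.log (tau a) + A) (-A)
        (fun ξ η => TG G (Xf β a (pt ξ η)) (deriv (Xf β a) (pt ξ η)) (Real.sin η) (Real.cos η))
        + C)
    (hS : StripIneq κ₂ (TG G)) (h0 : 0 ≤ κ₂)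
    (hκ : κ₂ < 2 * κ) : ∃ C a₀ : ℝ, a₀ < 1 ∧ ∀ (β : ℂ → ℂ) (R a : ℝ), ExtR β R → a₀ < a → a < 1 →
      Kf (wf G β) 1 (-1) (Real.log a) ≤ κ * Real.log (‖N β a‖ / (1 - a ^ 2)) + C := by
  obtain ⟨C₁, hC₁⟩ := hS
  obtain ⟨Cd, hCd⟩ := E1d
  -- the parameters `l` and `h`
  set δ : ℝ := 2 * κ - κ₂ with hδ
  have hδ0 : 0 < δ := by linarith
  set D : ℝ := max C₁ 0 with hD
  have hD0 : 0 ≤ D := le_max_right _ _
  have hDC : C₁ ≤ D := le_max_left _ _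
  set l : ℝ := 1 + 2 * D / δ with hl
  have hl1 : 1 ≤ l := by
    have : 0 ≤ 2 * D / δ := by positivity
    linarith
  have hl0 : 0 < l := by linarith
  have hDl : D / l ≤ δ / 2 := by
    rw [div_le_div_iff₀ hl0 two_pos]
    have : D * 2 = δ * (2 * D / δ) := by field_simp
    rw [this]
    apply mul_le_mul_of_nonneg_left _ hδ0.le
    linarith
  set k : ℝ := κ₂ + D / l with hk
  have hk0 : 0 ≤ k := by
    have : 0 ≤ D / l := by positivity
    linarith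
  have hk1 : k ≤ κ₂ + δ / 2 := by linarith
  have hk2 : k < 2 * κ := by linarith
  set g : ℝ := (2 * κ - k) / (k + 1) with hg
  have hg0 : 0 < g := div_pos (by linarith) (by linarith)
  have hkg : k * (1 + g) ≤ 2 * κ := by
    have h1 : g * (k + 1) = 2 * κ - k := by
      rw [hg]
      field_simp
    nlinarith
  set A : ℝ := 1 + l with hA
  have hA1 : 1 ≤ A := by linarith
  obtain ⟨C₃, hC₃⟩ := E3 A hA1
  refine ⟨C₃ + π⁻¹ * (k * ((1 + 1 / g) * Cd)), max (Real.exp (-1)) (1 - Real.exp (-2 * A)), ?_, ?_⟩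
  · apply max_lt
    · rw [← Real.exp_zero]
      exact Real.exp_lt_exp.mpr (by norm_num)
    · linarith [Real.exp_pos (-2 * A)]
  intro β R a hβ ha ha1
  have hae : Real.exp (-1) < a := lt_of_le_of_lt (le_max_left _ _) ha
  have ha0 : 0 < a := (Real.exp_pos _).trans hae
  have hfar := tau_far (A := A) (lt_of_le_of_lt (le_max_right _ _) ha) ha0 ha1
  have hK := hC₃ β R a hβ hae ha1 hfar
  set x₁ : ℝ := Real.log (tau a) + 1 with hx₁
  have e1 : Real.log (tau a) + A = x₁ + l := by rw [hA, hx₁]; ring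
  have e2 : -A = -1 - l := by rw [hA]; ring
  rw [e1, e2] at hK hfar
  have hx12 : x₁ ≤ -1 := by linarith
  have hxt : Real.log (tau a) < x₁ := by linarith
  have hX : NiceX (Xf β a) x₁ (-1) := Pool.Agent.Helper67.EK.E1c hβ ha0 ha1 hxt (by norm_num)
  have hst := hC₁ (Xf β a) x₁ (-1) l hl1 hfar hX
  have hb := E1b hβ ha0 ha1 hxt hx12 (by norm_num)
  have hd := hCd a ha0 ha1 x₁ (-1) le_rfl hx12 le_rfl
  set Λ : ℝ := Real.log (‖N β a‖ / (1 - a ^ 2)) with hΛ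
  -- continuity
  have cX : ContinuousOn (fun v : ℝ × ℝ => Xf β a (pt v.1 v.2)) (Icc x₁ (-1) ×ˢ Icc 0 π) :=
    hX.an.continuousOn.comp continuous_pt.continuousOn (pt_mapsTo _ _)
  have cK : ContinuousOn (fun v : ℝ × ℝ => kap a (pt v.1 v.2)) (Icc x₁ (-1) ×ˢ Icc 0 π) :=
    kap_contOn ha0 ha1 hxt (by norm_num)
  have c1 : ContinuousOn (fun v : ℝ × ℝ => ‖Xf β a (pt v.1 v.2) - 1‖ ^ 2)
      (Icc x₁ (-1) ×ˢ Icc 0 π) := (cX.sub continuousOn_const).norm.pow 2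
  have c2 : ContinuousOn (fun v : ℝ × ℝ => ‖2 * Xf β a (pt v.1 v.2) - 2 * kap a (pt v.1 v.2)‖ ^ 2)
      (Icc x₁ (-1) ×ˢ Icc 0 π) :=
    ((continuousOn_const.mul cX).sub (continuousOn_const.mul cK)).norm.pow 2
  have c3 : ContinuousOn (fun v : ℝ × ℝ => ‖kap a (pt v.1 v.2) - 1‖ ^ 2)
      (Icc x₁ (-1) ×ˢ Icc 0 π) := (cK.sub continuousOn_const).norm.pow 2
  have hE := II_le3 (F₁ := fun ξ η => ‖Xf β a (pt ξ η) - 1‖ ^ 2)
    (F₂ := fun ξ η => ‖2 * Xf β a (pt ξ η) - 2 * kap a (pt ξ η)‖ ^ 2)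
    (F₃ := fun ξ η => ‖kap a (pt ξ η) - 1‖ ^ 2) (p := (1 + g) / 4) (q := 1 + 1 / g)
    hx12 c1 c2 c3 (by
      intro ξ η
      have h1 : Xf β a (pt ξ η) - 1 = (2 * Xf β a (pt ξ η) - 2 * kap a (pt ξ η)) / 2 +
        (kap a (pt ξ η) - 1) := by ring
      have h2 : ‖Xf β a (pt ξ η) - 1‖ ≤ ‖2 * Xf β a (pt ξ η) - 2 * kap a (pt ξ η)‖ / 2 +
          ‖kap a (pt ξ η) - 1‖ := by
        rw [h1]
        refine (norm_add_le _ _).trans ?_
        rw [norm_div]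
        simp
      have h3 := norm_nonneg (Xf β a (pt ξ η) - 1)
      have h4 := norm_nonneg (2 * Xf β a (pt ξ η) - 2 * kap a (pt ξ η))
      have h5 := norm_nonneg (kap a (pt ξ η) - 1)
      generalize ‖Xf β a (pt ξ η) - 1‖ = u at *
      generalize ‖2 * Xf β a (pt ξ η) - 2 * kap a (pt ξ η)‖ = v at *
      generalize ‖kap a (pt ξ η) - 1‖ = w at *
      have h6 : u ^ 2 ≤ (v / 2 + w) ^ 2 := by nlinarith
      have h7 : (v / 2 + w) ^ 2 ≤ (1 + g) / 4 * v ^ 2 + (1 + 1 / g) * w ^ 2 := by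
        have h8 : (1 + g) / 4 * v ^ 2 + (1 + 1 / g) * w ^ 2 - (v / 2 + w) ^ 2 =
            (g * v / 2 - w) ^ 2 / g := by
          field_simp
          ring
        have h9 : 0 ≤ (g * v / 2 - w) ^ 2 / g := by positivity
        linarith
      exact h6.trans h7)
  -- assemble
  have hEn : 0 ≤ II x₁ (-1) (fun ξ η => ‖Xf β a (pt ξ η) - 1‖ ^ 2) :=
    II_nonneg hx12 (fun ξ η => by positivity)
  set E : ℝ := II x₁ (-1) (fun ξ η => ‖Xf β a (pt ξ η) - 1‖ ^ 2) with hEdef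
  have hπ : 0 < π := Real.pi_pos
  have hπi : 0 < π⁻¹ := inv_pos.mpr hπ
  have hE2 : E ≤ (1 + g) / 4 * (2 * π * Λ) + (1 + 1 / g) * Cd := by
    have h1 : 0 < (1 + g) / 4 := by positivity
    have h2 : 0 < 1 + 1 / g := by positivity
    have h3 := mul_le_mul_of_nonneg_left hb h1.le
    have h4 := mul_le_mul_of_nonneg_left hd h2.le
    linarith
  have hT : II (x₁ + l) (-1 - l) (fun ξ η => TG G (Xf β a (pt ξ η)) (deriv (Xf β a) (pt ξ η))
      (Real.sin η) (Real.cos η)) ≤ k * E := by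
    refine hst.trans ?_
    apply mul_le_mul_of_nonneg_right _ hEn
    rw [hk]
    have : C₁ / l ≤ D / l := div_le_div_of_nonneg_right hDC hl0.le
    linarith
  have hΛ0 : 0 ≤ Λ := by
    have h1 : ‖(a : ℂ)‖ < 1 := by
      rw [Complex.norm_real, Real.norm_eq_abs, abs_of_pos ha0]
      exact ha1
    have h2 := Pool.Agent.Helper39.EK.N_ge hβ.toExt h1
    rw [Complex.norm_real, Real.norm_eq_abs, abs_of_pos ha0] at h2
    have h3 : 0 < 1 - a ^ 2 := by nlinarith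
    apply Real.log_nonneg
    rw [le_div_iff₀ h3]
    linarith
  have h1 : k * E ≤ k * ((1 + g) / 4 * (2 * π * Λ) + (1 + 1 / g) * Cd) :=
    mul_le_mul_of_nonneg_left hE2 hk0
  have h2 : π⁻¹ * II (x₁ + l) (-1 - l) (fun ξ η => TG G (Xf β a (pt ξ η))
      (deriv (Xf β a) (pt ξ η)) (Real.sin η) (Real.cos η)) ≤
      π⁻¹ * (k * ((1 + g) / 4 * (2 * π * Λ) + (1 + 1 / g) * Cd)) :=
    mul_le_mul_of_nonneg_left (hT.trans h1) hπi.le
  have h3 : π⁻¹ * (k * ((1 + g) / 4 * (2 * π * Λ) + (1 + 1 / g) * Cd)) =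
      k * (1 + g) / 2 * Λ + π⁻¹ * (k * ((1 + 1 / g) * Cd)) := by
    field_simp
    ring
  have h4 : k * (1 + g) / 2 * Λ ≤ κ * Λ := by
    apply mul_le_mul_of_nonneg_right _ hΛ0
    linarith
  linarith

end Pool.Agent.Helper83.EK
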