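import Pool.Agent.Helper83.EK.KOneOf
import Pool.Agent.Helper86.EK.E1b
import Pool.Agent.Helper70.EK.E3Pre
import Pool.Agent.Helper84.EK.E3bFinal
set_option autoImplicit false
open Complex MeasureTheory Metric Set
open scoped Real ComplexConjugate

/-! Project EK, module E6a: only E1d remains a hypothesis. -/

namespace Pool.Agent.Helper83.EK

open Pool.Agent.Helper39.Area Pool.Agent.Helper52.EK

theorem K_one_of_d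
    (E1d : ∃ C : ℝ, ∀ a : ℝ, 0 < a → a < 1 → ∀ x₁ x₂ : ℝ, Real.log (tau a) + 1 ≤ x₁ →
      x₁ ≤ x₂ → x₂ ≤ -1 → II x₁ x₂ (fun ξ η => ‖kap a (pt ξ η) - 1‖ ^ 2) ≤ C)
    {κ₂ κ L : ℝ} {G : ℂ → ℂ} (hG : GLip G L) (hS : StripIneq κ₂ (TG G)) (h0 : 0 ≤ κ₂)
    (hκ : κ₂ < 2 * κ) : ∃ C a₀ : ℝ, a₀ < 1 ∧ ∀ (β : ℂ → ℂ) (R a : ℝ), ExtR β R → a₀ < a → a < 1 →
      Kf (wf G β) 1 (-1) (Real.log a) ≤ κ * Real.log (‖N β a‖ / (1 - a ^ 2)) + C :=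
  K_one_of (fun h _ ha ha1 _ _ h1 h12 h2 => Pool.Agent.Helper86.EK.E1b h ha ha1 h1 h12 h2) E1d
    (Pool.Agent.Helper70.EK.E3_of_b Pool.Agent.Helper84.EK.E3b hG) hS h0 hκ

end Pool.Agent.Helper83.EK
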