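import Pool.Agent.Helper83.EK.KOneD
import Pool.Agent.Helper16.EK.Kap
set_option autoImplicit false
open Complex MeasureTheory Metric Set
open scoped Real ComplexConjugate

/-! Project EK, module E6a: the bound for one target. -/

namespace Pool.Agent.Helper83.EK

open Pool.Agent.Helper39.Area Pool.Agent.Helper52.EK

/-- E6a -/
theorem K_one {κ₂ κ L : ℝ} {G : ℂ → ℂ} (hG : GLip G L) (hS : StripIneq κ₂ (TG G)) (h0 : 0 ≤ κ₂)
    (hκ : κ₂ < 2 * κ) : ∃ C a₀ : ℝ, a₀ < 1 ∧ ∀ (β : ℂ → ℂ) (R a : ℝ), ExtR β R → a₀ < a → a < 1 →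
      Kf (wf G β) 1 (-1) (Real.log a) ≤ κ * Real.log (‖N β a‖ / (1 - a ^ 2)) + C :=
  K_one_of_d Pool.Agent.Helper16.EK.E1d hG hS h0 hκ

end Pool.Agent.Helper83.EK
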