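import Pool.Agent.Helper83.EK.KOneOf
set_option autoImplicit false
open Complex MeasureTheory Metric Set
open scoped Real ComplexConjugate

/-! Project EKC: the bound for one target, general centre `α`, general comparison function `kp`,
general right side `Λ`. -/

namespace Pool.Agent.Helper83.EK

open Pool.Agent.Helper39.Area Pool.Agent.Helper52.EK Pool.Agent.Helper70.EK

/-- `StripIneq` with the centre `α` instead of `1` -/
def StripIneqA (α : ℂ) (κ₂ : ℝ) (T : ℂ → ℂ → ℝ → ℝ → ℝ) : Prop :=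
  ∃ C₁ : ℝ, ∀ (X : ℂ → ℂ) (x₁ x₂ l : ℝ), 1 ≤ l → x₁ + l ≤ x₂ - l → NiceX X x₁ x₂ →
    II (x₁ + l) (x₂ - l) (fun ξ η => T (X (pt ξ η)) (deriv X (pt ξ η)) (Real.sin η) (Real.cos η)) ≤
      (κ₂ + C₁ / l) * II x₁ x₂ (fun ξ η => ‖X (pt ξ η) - α‖ ^ 2)

theorem K_one_gen
    {α : ℂ} {kp : ℝ → ℂ → ℂ} {Lam : (ℂ → ℂ) → ℝ → ℝ}
    (E1b : ∀ {β : ℂ → ℂ} {R : ℝ} (_ : ExtR β R) {a : ℝ} (_ : 0 < a) (_ : a < 1) {x₁ x₂ : ℝ}
      (_ : Real.log (tau a) < x₁) (_ : x₁ ≤ x₂) (_ : x₂ < 0),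
      II x₁ x₂ (fun ξ η => ‖2 * Xf β a (pt ξ η) - 2 * kp a (pt ξ η)‖ ^ 2) ≤
        2 * π * Lam β a)
    (E1d : ∃ C : ℝ, ∀ a : ℝ, 0 < a → a < 1 → ∀ x₁ x₂ : ℝ, Real.log (tau a) + 1 ≤ x₁ →
      x₁ ≤ x₂ → x₂ ≤ -1 → II x₁ x₂ (fun ξ η => ‖kp a (pt ξ η) - α‖ ^ 2) ≤ C)
    (kpc : ∀ {a : ℝ} (_ : 0 < a) (_ : a < 1) {x₁ x₂ : ℝ} (_ : Real.log (tau a) < x₁)
      (_ : x₂ < 0), ContinuousOn (fun v : ℝ × ℝ => kp a (pt v.1 v.2)) (Icc x₁ x₂ ×ˢ Icc 0 π))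
    {κ₂ κ : ℝ} {G : ℂ → ℂ}
    (E3 : ∀ A : ℝ, 1 ≤ A → ∃ C : ℝ,
      ∀ (β : ℂ → ℂ) (R a : ℝ), ExtR β R → Real.exp (-1) < a → a < 1 →
      Real.log (tau a) + A ≤ -A →
      Kf (wf G β) 1 (-1) (Real.log a) ≤ π⁻¹ * II (Real.log (tau a) + A) (-A)
        (fun ξ η => TG G (Xf β a (pt ξ η)) (deriv (Xf β a) (pt ξ η)) (Real.sin η) (Real.cos η))
        + C)
    (hS : StripIneqA α κ₂ (TG G)) (h0 : 0 ≤ κ₂)
    (hκ : κ₂ < 2 * κ) : ∃ C a₀ : ℝ, a₀ < 1 ∧ ∀ (β : ℂ → ℂ) (R a : ℝ), ExtR β R → a₀ < a → a < 1 →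
      Kf (wf G β) 1 (-1) (Real.log a) ≤ κ * Lam β a + C := by
  obtain ⟨C₁, hC₁⟩ := hS
  obtain ⟨Cd, hCd⟩ := E1d
  -- the parameters `l` and `h`
  set δ : ℝ := 2 * κ - κ₂ with hδ
  have hδ0 : 0 < δ := by linarith
  set D : ℝ := max C₁ 0 with hD
  have hD0 : 0 ≤ D := le_max_right _ _
  have hDC : C₁ ≤ D := le_max_left _ _
  set l : ℝ := 1 + 2 * D / δ with hl
  have hl1 : 1 ≤ l := by
    have : 0 ≤ 2 * D / δ := by positivity
    linarith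
  have hl0 : 0 < l := by linarith
  have hDl : D / l ≤ δ / 2 := by
    rw [div_le_div_iff₀ hl0 two_pos]
    have : D * 2 = δ * (2 * D / δ) := by field_simp
    rw [this]
    apply mul_le_mul_of_nonneg_left _ hδ0.le
    linarith
  set k : ℝ := κ₂ + D / l with hk
  have hk0 : 0 ≤ k := by
    have : 0 ≤ D / l := by positivity
    linarith
  have hk1 : k ≤ κ₂ + δ / 2 := by linarith
  have hk2 : k < 2 * κ := by linarith
  set g : ℝ := (2 * κ - k) / (k + 1) with hg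
  have hg0 : 0 < g := div_pos (by linarith) (by linarith)
  have hkg : k * (1 + g) ≤ 2 * κ := by
    have h1 : g * (k + 1) = 2 * κ - k := by
      rw [hg]
      field_simp
    nlinarith
  set A : ℝ := 1 + l with hA
  have hA1 : 1 ≤ A := by linarith
  obtain ⟨C₃, hC₃⟩ := E3 A hA1
  refine ⟨C₃ + π⁻¹ * (k * ((1 + 1 / g) * Cd)), max (Real.exp (-1)) (1 - Real.exp (-2 * A)), ?_, ?_⟩
  · apply max_lt
    · rw [← Real.exp_zero]
      exact Real.exp_lt_exp.mpr (by norm_num)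
    · linarith [Real.exp_pos (-2 * A)]
  intro β R a hβ ha ha1
  have hae : Real.exp (-1) < a := lt_of_le_of_lt (le_max_left _ _) ha
  have ha0 : 0 < a := (Real.exp_pos _).trans hae
  have hfar := tau_far (A := A) (lt_of_le_of_lt (le_max_right _ _) ha) ha0 ha1
  have hK := hC₃ β R a hβ hae ha1 hfar
  set x₁ : ℝ := Real.log (tau a) + 1 with hx₁
  have e1 : Real.log (tau a) + A = x₁ + l := by rw [hA, hx₁]; ring
  have e2 : -A = -1 - l := by rw [hA]; ring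
  rw [e1, e2] at hK hfar
  have hx12 : x₁ ≤ -1 := by linarith
  have hxt : Real.log (tau a) < x₁ := by linarith
  have hX : NiceX (Xf β a) x₁ (-1) := Pool.Agent.Helper67.EK.E1c hβ ha0 ha1 hxt (by norm_num)
  have hst := hC₁ (Xf β a) x₁ (-1) l hl1 hfar hX
  have hb := E1b hβ ha0 ha1 hxt hx12 (by norm_num)
  have hd := hCd a ha0 ha1 x₁ (-1) le_rfl hx12 le_rfl
  set Λ : ℝ := Lam β a with hΛ
  -- continuity
  have cX : ContinuousOn (fun v : ℝ × ℝ => Xf β a (pt v.1 v.2)) (Icc x₁ (-1) ×ˢ Icc 0 π) :=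
    hX.an.continuousOn.comp continuous_pt.continuousOn (pt_mapsTo _ _)
  have cK : ContinuousOn (fun v : ℝ × ℝ => kp a (pt v.1 v.2)) (Icc x₁ (-1) ×ˢ Icc 0 π) :=
    kpc ha0 ha1 hxt (by norm_num)
  have c1 : ContinuousOn (fun v : ℝ × ℝ => ‖Xf β a (pt v.1 v.2) - α‖ ^ 2)
      (Icc x₁ (-1) ×ˢ Icc 0 π) := (cX.sub continuousOn_const).norm.pow 2
  have c2 : ContinuousOn (fun v : ℝ × ℝ => ‖2 * Xf β a (pt v.1 v.2) - 2 * kp a (pt v.1 v.2)‖ ^ 2)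
      (Icc x₁ (-1) ×ˢ Icc 0 π) :=
    ((continuousOn_const.mul cX).sub (continuousOn_const.mul cK)).norm.pow 2
  have c3 : ContinuousOn (fun v : ℝ × ℝ => ‖kp a (pt v.1 v.2) - α‖ ^ 2)
      (Icc x₁ (-1) ×ˢ Icc 0 π) := (cK.sub continuousOn_const).norm.pow 2
  have hE := II_le3 (F₁ := fun ξ η => ‖Xf β a (pt ξ η) - α‖ ^ 2)
    (F₂ := fun ξ η => ‖2 * Xf β a (pt ξ η) - 2 * kp a (pt ξ η)‖ ^ 2)
    (F₃ := fun ξ η => ‖kp a (pt ξ η) - α‖ ^ 2) (p := (1 + g) / 4) (q := 1 + 1 / g)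
    hx12 c1 c2 c3 (by
      intro ξ η
      have h1 : Xf β a (pt ξ η) - α = (2 * Xf β a (pt ξ η) - 2 * kp a (pt ξ η)) / 2 +
        (kp a (pt ξ η) - α) := by ring
      have h2 : ‖Xf β a (pt ξ η) - α‖ ≤ ‖2 * Xf β a (pt ξ η) - 2 * kp a (pt ξ η)‖ / 2 +
          ‖kp a (pt ξ η) - α‖ := by
        rw [h1]
        refine (norm_add_le _ _).trans ?_
        rw [norm_div]
        simp
      have h3 := norm_nonneg (Xf β a (pt ξ η) - α)
      have h4 := norm_nonneg (2 * Xf β a (pt ξ η) - 2 * kp a (pt ξ η))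
      have h5 := norm_nonneg (kp a (pt ξ η) - α)
      generalize ‖Xf β a (pt ξ η) - α‖ = u at *
      generalize ‖2 * Xf β a (pt ξ η) - 2 * kp a (pt ξ η)‖ = v at *
      generalize ‖kp a (pt ξ η) - α‖ = w at *
      have h6 : u ^ 2 ≤ (v / 2 + w) ^ 2 := by nlinarith
      have h7 : (v / 2 + w) ^ 2 ≤ (1 + g) / 4 * v ^ 2 + (1 + 1 / g) * w ^ 2 := by
        have h8 : (1 + g) / 4 * v ^ 2 + (1 + 1 / g) * w ^ 2 - (v / 2 + w) ^ 2 =
            (g * v / 2 - w) ^ 2 / g := by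
          field_simp
          ring
        have h9 : 0 ≤ (g * v / 2 - w) ^ 2 / g := by positivity
        linarith
      exact h6.trans h7)
  -- assemble
  have hEn : 0 ≤ II x₁ (-1) (fun ξ η => ‖Xf β a (pt ξ η) - α‖ ^ 2) :=
    II_nonneg hx12 (fun ξ η => by positivity)
  set E : ℝ := II x₁ (-1) (fun ξ η => ‖Xf β a (pt ξ η) - α‖ ^ 2) with hEdef
  have hπ : 0 < π := Real.pi_pos
  have hπi : 0 < π⁻¹ := inv_pos.mpr hπ
  have hE2 : E ≤ (1 + g) / 4 * (2 * π * Λ) + (1 + 1 / g) * Cd := by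
    have h1 : 0 < (1 + g) / 4 := by positivity
    have h2 : 0 < 1 + 1 / g := by positivity
    have h3 := mul_le_mul_of_nonneg_left hb h1.le
    have h4 := mul_le_mul_of_nonneg_left hd h2.le
    linarith
  have hT : II (x₁ + l) (-1 - l) (fun ξ η => TG G (Xf β a (pt ξ η)) (deriv (Xf β a) (pt ξ η))
      (Real.sin η) (Real.cos η)) ≤ k * E := by
    refine hst.trans ?_
    apply mul_le_mul_of_nonneg_right _ hEn
    rw [hk]
    have : C₁ / l ≤ D / l := div_le_div_of_nonneg_right hDC hl0.le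
    linarith
  have hΛ0 : 0 ≤ Λ := by
    have h1 : 0 ≤ II x₁ (-1) (fun ξ η => ‖2 * Xf β a (pt ξ η) - 2 * kp a (pt ξ η)‖ ^ 2) :=
      II_nonneg hx12 (fun ξ η => by positivity)
    have h2 : 0 ≤ 2 * π * Λ := h1.trans hb
    exact nonneg_of_mul_nonneg_right h2 (by positivity)
  have h1 : k * E ≤ k * ((1 + g) / 4 * (2 * π * Λ) + (1 + 1 / g) * Cd) :=
    mul_le_mul_of_nonneg_left hE2 hk0
  have h2 : π⁻¹ * II (x₁ + l) (-1 - l) (fun ξ η => TG G (Xf β a (pt ξ η))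
      (deriv (Xf β a) (pt ξ η)) (Real.sin η) (Real.cos η)) ≤
      π⁻¹ * (k * ((1 + g) / 4 * (2 * π * Λ) + (1 + 1 / g) * Cd)) :=
    mul_le_mul_of_nonneg_left (hT.trans h1) hπi.le
  have h3 : π⁻¹ * (k * ((1 + g) / 4 * (2 * π * Λ) + (1 + 1 / g) * Cd)) =
      k * (1 + g) / 2 * Λ + π⁻¹ * (k * ((1 + 1 / g) * Cd)) := by
    field_simp
    ring
  have h4 : k * (1 + g) / 2 * Λ ≤ κ * Λ := by
    apply mul_le_mul_of_nonneg_right _ hΛ0
    linarith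
  linarith

end Pool.Agent.Helper83.EK
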