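import Pool.Agent.Helper83.EK.KOneOf
set_option autoImplicit false
open Complex MeasureTheory Metric Set
open scoped Real ComplexConjugate

/-! Project EKC, modules E1d and E1d_u: the comparison function, for every direction `u`. -/

namespace Pool.Agent.Helper83.EK

open Pool.Agent.Helper39.Area Pool.Agent.Helper52.EK Pool.Agent.Helper70.EK

/-- comparison function for the direction `u`: `Z = exp ω`, `τ = tau a`,
`(Z/(Z-iτ) - Z/(Z-i) + u (Z/(Z+iτ) - Z/(Z+i)))/2` -/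
noncomputable def kapu (u : ℂ) (a : ℝ) (ω : ℂ) : ℂ :=
  (Complex.exp ω / (Complex.exp ω - I * (tau a : ℂ)) - Complex.exp ω / (Complex.exp ω - I) +
    u * (Complex.exp ω / (Complex.exp ω + I * (tau a : ℂ)) -
      Complex.exp ω / (Complex.exp ω + I))) / 2

theorem norm_exp_pt (ξ η : ℝ) : ‖Complex.exp (pt ξ η)‖ = Real.exp ξ := by
  rw [Complex.norm_exp]
  simp [pt]

theorem ne_of_norm {Z W : ℂ} (h : ‖Z‖ ≠ ‖W‖) : Z ≠ W := fun e => h (by rw [e])

theorem norm_I_tau {a : ℝ} (ha : 0 < a) (ha1 : a < 1) : ‖I * (tau a : ℂ)‖ = tau a := by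
  rw [norm_mul, Complex.norm_I, one_mul, Complex.norm_real, Real.norm_eq_abs,
    abs_of_pos (tau_pos ha ha1)]

/-- the four denominators -/
theorem den_ne {a ξ : ℝ} (ha : 0 < a) (ha1 : a < 1) (h1 : Real.log (tau a) < ξ) (h2 : ξ < 0)
    (η : ℝ) :
    Complex.exp (pt ξ η) - I * (tau a : ℂ) ≠ 0 ∧ Complex.exp (pt ξ η) - I ≠ 0 ∧
    Complex.exp (pt ξ η) + I * (tau a : ℂ) ≠ 0 ∧ Complex.exp (pt ξ η) + I ≠ 0 := by
  have ht := tau_pos ha ha1
  have h3 : tau a < Real.exp ξ := by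
    rw [← Real.exp_log ht]
    exact Real.exp_lt_exp.mpr h1
  have h4 : Real.exp ξ < 1 := by
    rw [← Real.exp_zero]
    exact Real.exp_lt_exp.mpr h2
  have hn := norm_exp_pt ξ η
  have hi := norm_I_tau ha ha1
  refine ⟨?_, ?_, ?_, ?_⟩
  · exact sub_ne_zero.mpr (ne_of_norm (by rw [hn, hi]; exact ne_of_gt h3))
  · exact sub_ne_zero.mpr (ne_of_norm (by rw [hn, Complex.norm_I]; exact ne_of_lt h4))
  · rw [← sub_neg_eq_add]
    exact sub_ne_zero.mpr (ne_of_norm (by rw [hn, norm_neg, hi]; exact ne_of_gt h3))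
  · rw [← sub_neg_eq_add]
    exact sub_ne_zero.mpr (ne_of_norm (by rw [hn, norm_neg, Complex.norm_I]; exact ne_of_lt h4))

theorem kapu_one {a ξ : ℝ} (ha : 0 < a) (ha1 : a < 1) (h1 : Real.log (tau a) < ξ) (h2 : ξ < 0)
    (η : ℝ) : kapu 1 a (pt ξ η) = kap a (pt ξ η) := by
  obtain ⟨d1, d2, d3, d4⟩ := den_ne ha ha1 h1 h2 η
  unfold kapu kap
  have e1 : Complex.exp (pt ξ η) ^ 2 + (tau a : ℂ) ^ 2 =
      (Complex.exp (pt ξ η) - I * (tau a : ℂ)) * (Complex.exp (pt ξ η) + I * (tau a : ℂ)) := by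
    linear_combination ((tau a : ℂ) ^ 2) * Complex.I_sq
  have e2 : Complex.exp (pt ξ η) ^ 2 + 1 =
      (Complex.exp (pt ξ η) - I) * (Complex.exp (pt ξ η) + I) := by
    linear_combination Complex.I_sq
  rw [e1, e2, eq_div_iff (mul_ne_zero (mul_ne_zero d1 d3) (mul_ne_zero d2 d4))]
  generalize Complex.exp (pt ξ η) = Z at *
  generalize (tau a : ℂ) = t at *
  field_simp
  ring_nf
  simp only [Complex.I_sq]
  ring

theorem kapu_contOn {u : ℂ} {a x₁ x₂ : ℝ} (ha : 0 < a) (ha1 : a < 1)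
    (h1 : Real.log (tau a) < x₁) (h2 : x₂ < 0) :
    ContinuousOn (fun v : ℝ × ℝ => kapu u a (pt v.1 v.2)) (Icc x₁ x₂ ×ˢ Icc 0 π) := by
  have hE : Continuous (fun v : ℝ × ℝ => Complex.exp (pt v.1 v.2)) :=
    Complex.continuous_exp.comp continuous_pt
  have hd : ∀ v ∈ Icc x₁ x₂ ×ˢ Icc (0:ℝ) π, Real.log (tau a) < v.1 ∧ v.1 < 0 := by
    rintro ⟨ξ, η⟩ ⟨hξ, _⟩
    exact ⟨lt_of_lt_of_le h1 hξ.1, lt_of_le_of_lt hξ.2 h2⟩
  have hEc : ContinuousOn (fun v : ℝ × ℝ => Complex.exp (pt v.1 v.2))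
    (Icc x₁ x₂ ×ˢ Icc (0:ℝ) π) := hE.continuousOn
  unfold kapu
  apply ContinuousOn.div_const
  apply ContinuousOn.add
  · apply ContinuousOn.sub
    · exact hEc.div (hEc.sub continuousOn_const)
        (fun v hv => (den_ne ha ha1 (hd v hv).1 (hd v hv).2 v.2).1)
    · exact hEc.div (hEc.sub continuousOn_const)
        (fun v hv => (den_ne ha ha1 (hd v hv).1 (hd v hv).2 v.2).2.1)
  · apply continuousOn_const.mul
    apply ContinuousOn.sub
    · exact hEc.div (hEc.add continuousOn_const)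
        (fun v hv => (den_ne ha ha1 (hd v hv).1 (hd v hv).2 v.2).2.2.1)
    · exact hEc.div (hEc.add continuousOn_const)
        (fun v hv => (den_ne ha ha1 (hd v hv).1 (hd v hv).2 v.2).2.2.2)

theorem frac_one {Z W : ℂ} (h : Z - W ≠ 0) : Z / (Z - W) = 1 + W / (Z - W) := by
  rw [eq_comm, ← div_self h, ← add_div]
  congr 1
  ring

theorem frac_le {Z W : ℂ} {r : ℝ} (hr : 0 < r) (hW : ‖W‖ ≤ 2 / 5 * r) (hZ : r ≤ ‖Z‖) :
    ‖W / (Z - W)‖ ≤ 5 / 3 * (‖W‖ / r) ∧ ‖W / (Z + W)‖ ≤ 5 / 3 * (‖W‖ / r) := by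
  have h0 := norm_nonneg W
  have key : ∀ V : ℂ, 3 / 5 * r ≤ ‖V‖ → ‖W / V‖ ≤ 5 / 3 * (‖W‖ / r) := by
    intro V hV
    have h1 : 0 < ‖V‖ := by linarith
    rw [norm_div, div_le_iff₀ h1]
    have h2 : ‖W‖ = 5 / 3 * (‖W‖ / r) * (3 / 5 * r) := by field_simp
    have h3 : 0 ≤ 5 / 3 * (‖W‖ / r) := by positivity
    calc ‖W‖ = 5 / 3 * (‖W‖ / r) * (3 / 5 * r) := h2
      _ ≤ 5 / 3 * (‖W‖ / r) * ‖V‖ := mul_le_mul_of_nonneg_left hV h3
  constructor
  · apply key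
    have := norm_sub_norm_le Z W
    linarith
  · apply key
    have := norm_sub_norm_le Z (-W)
    rw [sub_neg_eq_add, norm_neg] at this
    linarith

theorem kapu_sub_le {u : ℂ} (hu : ‖u‖ ≤ 1) {a ξ : ℝ} (ha : 0 < a) (ha1 : a < 1)
    (h1 : Real.log (tau a) + 1 ≤ ξ) (h2 : ξ ≤ -1) (η : ℝ) :
    ‖kapu u a (pt ξ η) - (1 + u) / 2‖ ^ 2 ≤
      6 * (tau a ^ 2 * Real.exp (-2 * ξ) + Real.exp (2 * ξ)) := by
  have ht := tau_pos ha ha1
  obtain ⟨d1, d2, d3, d4⟩ := den_ne ha ha1 (by linarith : Real.log (tau a) < ξ)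
    (by linarith : ξ < 0) η
  have hn := norm_exp_pt ξ η
  have hi := norm_I_tau ha ha1
  have hr := Real.exp_pos ξ
  have he1 : Real.exp (-1) < 0.3678794412 := Real.exp_neg_one_lt_d9
  have h3 : tau a ≤ 2 / 5 * Real.exp ξ := by
    have h4 : tau a * Real.exp 1 ≤ Real.exp ξ := by
      calc tau a * Real.exp 1 = Real.exp (Real.log (tau a) + 1) := by
            rw [Real.exp_add, Real.exp_log ht]
        _ ≤ Real.exp ξ := Real.exp_le_exp.mpr h1
    have h5 : tau a ≤ Real.exp (-1) * Real.exp ξ := by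
      rw [Real.exp_neg]
      rw [inv_mul_eq_div, le_div_iff₀ (Real.exp_pos 1)]
      exact h4
    nlinarith
  have h6 : Real.exp ξ ≤ 2 / 5 := by
    have : Real.exp ξ ≤ Real.exp (-1) := Real.exp_le_exp.mpr h2
    linarith
  have f1 := frac_le (Z := Complex.exp (pt ξ η)) (W := I * (tau a : ℂ)) hr (by rw [hi]; exact h3)
    (le_of_eq hn.symm)
  have f2 := frac_le (Z := I) (W := Complex.exp (pt ξ η)) one_pos (by rw [hn]; linarith)
    (le_of_eq Complex.norm_I.symm)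
  rw [hi] at f1
  rw [hn, div_one] at f2
  have e : kapu u a (pt ξ η) - (1 + u) / 2 =
      (I * (tau a : ℂ) / (Complex.exp (pt ξ η) - I * (tau a : ℂ)) +
        Complex.exp (pt ξ η) / (I - Complex.exp (pt ξ η)) -
        u * (I * (tau a : ℂ) / (Complex.exp (pt ξ η) + I * (tau a : ℂ)) +
        Complex.exp (pt ξ η) / (I + Complex.exp (pt ξ η)))) / 2 := by
    have d2' : I - Complex.exp (pt ξ η) ≠ 0 := by
      intro h
      exact d2 (by linear_combination -h)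
    have d4' : I + Complex.exp (pt ξ η) ≠ 0 := by
      intro h
      exact d4 (by linear_combination h)
    have g1 := frac_one d1
    have g2 : Complex.exp (pt ξ η) / (Complex.exp (pt ξ η) - I) =
        -(Complex.exp (pt ξ η) / (I - Complex.exp (pt ξ η))) := by
      rw [← div_neg]
      congr 1
      ring
    have g3 : Complex.exp (pt ξ η) / (Complex.exp (pt ξ η) + I * (tau a : ℂ)) =
        1 - I * (tau a : ℂ) / (Complex.exp (pt ξ η) + I * (tau a : ℂ)) := by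
      rw [eq_sub_iff_add_eq, ← add_div, div_self d3]
    have g4 : Complex.exp (pt ξ η) / (Complex.exp (pt ξ η) + I) =
        Complex.exp (pt ξ η) / (I + Complex.exp (pt ξ η)) := by
      rw [add_comm]
    unfold kapu
    rw [g1, g2, g3, g4]
    ring
  rw [e]
  have hA := f1.1
  have hB := f2.1
  have hC := f1.2
  have hD := f2.2
  set A := I * (tau a : ℂ) / (Complex.exp (pt ξ η) - I * (tau a : ℂ)) with hAd
  set B := Complex.exp (pt ξ η) / (I - Complex.exp (pt ξ η)) with hBd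
  set C := I * (tau a : ℂ) / (Complex.exp (pt ξ η) + I * (tau a : ℂ)) with hCd
  set D := Complex.exp (pt ξ η) / (I + Complex.exp (pt ξ η)) with hDd
  have hb : ‖(A + B - u * (C + D)) / 2‖ ≤ 5 / 3 * (tau a / Real.exp ξ + Real.exp ξ) := by
    rw [norm_div, Complex.norm_ofNat]
    have h7 : ‖A + B - u * (C + D)‖ ≤ (‖A‖ + ‖B‖) + (‖C‖ + ‖D‖) := by
      refine (norm_sub_le _ _).trans ?_
      refine add_le_add (norm_add_le _ _) ?_
      rw [norm_mul]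
      have h8 : ‖C + D‖ ≤ ‖C‖ + ‖D‖ := norm_add_le _ _
      have h9 := norm_nonneg (C + D)
      nlinarith
    rw [div_le_iff₀ two_pos]
    linarith
  have h10 : tau a ^ 2 * Real.exp (-2 * ξ) = (tau a / Real.exp ξ) ^ 2 := by
    have : Real.exp (-2 * ξ) = (Real.exp ξ ^ 2)⁻¹ := by
      rw [← Real.exp_nat_mul, ← Real.exp_neg]
      congr 1
      push_cast
      ring
    rw [this, div_pow, div_eq_mul_inv]
  have h11 : Real.exp (2 * ξ) = Real.exp ξ ^ 2 := by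
    rw [← Real.exp_nat_mul]
    congr 1
  rw [h10, h11]
  have h12 := norm_nonneg ((A + B - u * (C + D)) / 2)
  have h13 : 0 ≤ tau a / Real.exp ξ := by positivity
  generalize tau a / Real.exp ξ = p at *
  generalize Real.exp ξ = q at *
  generalize ‖(A + B - u * (C + D)) / 2‖ = n at *
  have h14 : n ^ 2 ≤ (5 / 3 * (p + q)) ^ 2 := by
    apply pow_le_pow_left₀ h12 hb
  nlinarith [sq_nonneg (p - q), sq_nonneg p, sq_nonneg q]

theorem II_bound {x₁ x₂ t : ℝ} (h2 : x₂ ≤ 0) (ht : 0 < t)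
    (h1 : Real.log t ≤ x₁) :
    II x₁ x₂ (fun ξ _ => 6 * (t ^ 2 * Real.exp (-2 * ξ) + Real.exp (2 * ξ))) ≤ 6 * π := by
  unfold II
  have e : ∀ ξ : ℝ, ∫ _ in (0:ℝ)..π, 6 * (t ^ 2 * Real.exp (-2 * ξ) + Real.exp (2 * ξ)) =
      6 * π * (t ^ 2 * Real.exp (-2 * ξ) + Real.exp (2 * ξ)) := by
    intro ξ
    rw [intervalIntegral.integral_const]
    simp only [smul_eq_mul, sub_zero]
    ring
  simp only [e]
  have hF : ∀ ξ : ℝ, HasDerivAt (fun ξ : ℝ => 6 * π * (-(t ^ 2) / 2 * Real.exp (-2 * ξ) +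
      1 / 2 * Real.exp (2 * ξ))) (6 * π * (t ^ 2 * Real.exp (-2 * ξ) + Real.exp (2 * ξ))) ξ := by
    intro ξ
    have a1 : HasDerivAt (fun ξ : ℝ => Real.exp (-2 * ξ)) (Real.exp (-2 * ξ) * (-2)) ξ := by
      have := ((hasDerivAt_id ξ).const_mul (-2)).exp
      simpa using this
    have a2 : HasDerivAt (fun ξ : ℝ => Real.exp (2 * ξ)) (Real.exp (2 * ξ) * 2) ξ := by
      have := ((hasDerivAt_id ξ).const_mul 2).exp
      simpa using this
    have a3 := ((a1.const_mul (-(t ^ 2) / 2)).add (a2.const_mul (1 / 2))).const_mul (6 * π)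
    have a4 : 6 * π * (-(t ^ 2) / 2 * (Real.exp (-2 * ξ) * (-2)) +
        1 / 2 * (Real.exp (2 * ξ) * 2)) =
        6 * π * (t ^ 2 * Real.exp (-2 * ξ) + Real.exp (2 * ξ)) := by ring
    rw [← a4]
    exact a3
  rw [intervalIntegral.integral_eq_sub_of_hasDerivAt (fun ξ _ => hF ξ)]
  · have b1 : t ^ 2 * Real.exp (-2 * x₁) ≤ 1 := by
      have : t ≤ Real.exp x₁ := by
        rw [← Real.exp_log ht]
        exact Real.exp_le_exp.mpr h1
      have h3 : Real.exp (-2 * x₁) = (Real.exp x₁ ^ 2)⁻¹ := by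
        rw [← Real.exp_nat_mul, ← Real.exp_neg]
        congr 1
        push_cast
        ring
      rw [h3, mul_inv_le_iff₀ (by positivity), one_mul]
      exact pow_le_pow_left₀ ht.le this 2
    have b2 : Real.exp (2 * x₂) ≤ 1 := by
      rw [← Real.exp_zero]
      exact Real.exp_le_exp.mpr (by linarith)
    have b3 := Real.exp_pos (2 * x₁)
    have b4 := Real.exp_pos (-2 * x₂)
    have b5 : 0 ≤ t ^ 2 * Real.exp (-2 * x₂) := by positivity
    have hπ := Real.pi_pos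
    have b6 : 6 * π * (-(t ^ 2) / 2 * Real.exp (-2 * x₂) + 1 / 2 * Real.exp (2 * x₂)) -
        6 * π * (-(t ^ 2) / 2 * Real.exp (-2 * x₁) + 1 / 2 * Real.exp (2 * x₁)) =
        3 * π * ((t ^ 2 * Real.exp (-2 * x₁) + Real.exp (2 * x₂)) -
          (t ^ 2 * Real.exp (-2 * x₂) + Real.exp (2 * x₁))) := by ring
    rw [b6]
    nlinarith
  · apply Continuous.intervalIntegrable
    fun_prop

/-- E1d for every direction `u`, `‖u‖ ≤ 1`, with one constant -/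
theorem E1d_u : ∃ C : ℝ, ∀ u : ℂ, ‖u‖ ≤ 1 → ∀ a : ℝ, 0 < a → a < 1 → ∀ x₁ x₂ : ℝ,
    Real.log (tau a) + 1 ≤ x₁ → x₁ ≤ x₂ → x₂ ≤ -1 →
    II x₁ x₂ (fun ξ η => ‖kapu u a (pt ξ η) - (1 + u) / 2‖ ^ 2) ≤ C := by
  refine ⟨6 * π, ?_⟩
  intro u hu a ha ha1 x₁ x₂ h1 h12 h2
  have ht := tau_pos ha ha1
  refine le_trans ?_ (II_bound (x₁ := x₁) (x₂ := x₂) (t := tau a) (by linarith) ht (by linarith))
  have cK := kapu_contOn (u := u) (x₁ := x₁) (x₂ := x₂) ha ha1 (by linarith) (by linarith)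
  have c1 : ContinuousOn (fun v : ℝ × ℝ => ‖kapu u a (pt v.1 v.2) - (1 + u) / 2‖ ^ 2)
      (Icc x₁ x₂ ×ˢ Icc 0 π) := (cK.sub continuousOn_const).norm.pow 2
  have c2 : ContinuousOn (fun v : ℝ × ℝ => 6 * (tau a ^ 2 * Real.exp (-2 * v.1) +
      Real.exp (2 * v.1))) (Icc x₁ x₂ ×ˢ Icc 0 π) := by
    apply Continuous.continuousOn
    fun_prop
  have i₁ := integrableOn_rect c1
  have i₂ := integrableOn_rect c2
  rw [II_eq (F := fun ξ η => ‖kapu u a (pt ξ η) - (1 + u) / 2‖ ^ 2) h12 i₁,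
    II_eq (F := fun ξ _ => 6 * (tau a ^ 2 * Real.exp (-2 * ξ) + Real.exp (2 * ξ))) h12 i₂]
  apply setIntegral_mono_on i₁ i₂ (measurableSet_Ioc.prod measurableSet_Ioo)
  rintro ⟨ξ, η⟩ ⟨hξ, _⟩
  have hξ' : x₁ < ξ ∧ ξ ≤ x₂ := hξ
  exact kapu_sub_le hu ha ha1 (by linarith [hξ'.1]) (by linarith [hξ'.2]) η

/-- E1d -/
theorem E1d : ∃ C : ℝ, ∀ a : ℝ, 0 < a → a < 1 → ∀ x₁ x₂ : ℝ, Real.log (tau a) + 1 ≤ x₁ →
    x₁ ≤ x₂ → x₂ ≤ -1 → II x₁ x₂ (fun ξ η => ‖kap a (pt ξ η) - 1‖ ^ 2) ≤ C := by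
  obtain ⟨C, hC⟩ := E1d_u
  refine ⟨C, ?_⟩
  intro a ha ha1 x₁ x₂ h1 h12 h2
  have h := hC 1 (by simp) a ha ha1 x₁ x₂ h1 h12 h2
  have e : II x₁ x₂ (fun ξ η => ‖kap a (pt ξ η) - 1‖ ^ 2) =
      II x₁ x₂ (fun ξ η => ‖kapu 1 a (pt ξ η) - (1 + 1) / 2‖ ^ 2) := by
    unfold II
    apply intervalIntegral.integral_congr
    intro ξ hξ
    rw [uIcc_of_le h12] at hξ
    change ∫ η in (0:ℝ)..π, ‖kap a (pt ξ η) - 1‖ ^ 2 =
      ∫ η in (0:ℝ)..π, ‖kapu 1 a (pt ξ η) - (1 + 1) / 2‖ ^ 2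
    congr 1
    funext η
    rw [kapu_one ha ha1 (by linarith [hξ.1]) (by linarith [hξ.2])]
    norm_num
  rw [e]
  exact h

end Pool.Agent.Helper83.EK
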